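import Pool.Agent.H62.HaarCube

set_option autoImplicit false
open MeasureTheory

namespace Pool.Agent.Results.MP_08a145_lc.CubeSplit

/-- `N` is Haar null in the group `G` of self-maps (composition, compact-open topology) -/
def HaarNull {X : Type} [TopologicalSpace X] (G : Set C(X, X)) (N : Set G) : Prop :=
  ∃ B : Set G, N ⊆ B ∧ @MeasurableSet G (borel G) B ∧
    ∃ μ : @Measure G (borel G), IsProbabilityMeasure μ ∧ ∀ g h : G,
      μ {x : G | ∃ b ∈ B, x.1 = g.1.comp (b.1.comp h.1)} = 0

/-- `G` is partitioned into a meagre set and a Haar null set -/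
def Splits {X : Type} [TopologicalSpace X] (G : Set C(X, X)) : Prop :=
  ∃ M N : Set G, M ∪ N = Set.univ ∧ Disjoint M N ∧ IsMeagre M ∧ HaarNull G N

/-- the Hilbert cube -/
abbrev Q : Type := ℕ → unitInterval

/-- the homeomorphisms of the Hilbert cube (continuous bijections of a compact Hausdorff space) -/
def HQ : Set C(Q, Q) := {f | Function.Bijective f}

theorem result : Splits HQ := by
  let : MeasurableSpace HQ := borel _
  have : BorelSpace HQ := ⟨rfl⟩
  obtain ⟨B, h1, h2, h3⟩ := Pool.Agent.H62.HaarFlow.cube HQ rfl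
  exact ⟨Bᶜ, B, Set.compl_union_self B, disjoint_compl_left, h1, B, subset_rfl, h2, h3⟩

end Pool.Agent.Results.MP_08a145_lc.CubeSplit
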